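import Pool.Agent.Lib.MP_cd8379_lc.Main

/-!
Addition machines which compute `x ^ y mod z` by arithmetic modulo `z`, the intermediate results
being visible in the registers, need at least a constant times `n * m` steps.
-/

namespace Pool.Agent.Results.MP_cd8379_lc.VisibleArithmetic

open Pool.Agent.MP_cd8379_lc

/-- Let `C = 1024 (r + 6)² (β + 1)` and `C ≤ n ≤ m`. Let `z` be a prime with `m` binary digits,
`y` a number with `n` binary digits, `M` an addition machine with `r` registers and at most
`2 ^ (m / (64 (r + 6)))` instructions, `Δ` a set of at most `2 ^ (m / (64 (r + 6)))` decoders and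
`Φ` a set of at most `2 ^ (m / (32 (r + 6)))` rational functions modulo `z`. Then for at most
`2 ^ (m / 2)` numbers `x < z` there is `T < n m / C` such that the first `T` steps of the run of
`M` on `x, y, z` show, through `Δ`, the values at `x` of all members of degree at most
`2 ^ (m / (64 (r + 6)))` of some computation of `X ^ y` with degree growth `2 ^ β` whose members
of this degree belong to `Φ`. -/
theorem result (r β n m : ℕ) (hβ : 1 ≤ β) (hn : 1024 * (r + 6) ^ 2 * (β + 1) ≤ n) (hnm : n ≤ m)
    (z : ℕ) [Fact z.Prime] (hzm : Nat.size z = m) (y : ℕ) (hy : Nat.size y = n) (M : Machine r)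
    (hM : M.length ≤ 2 ^ (m / (64 * (r + 6)))) (Δ : Finset (Decoder r))
    (hΔ : Δ.card ≤ 2 ^ (m / (64 * (r + 6)))) (Φ : Finset (RatFunc (ZMod z)))
    (hΦ : Φ.card ≤ 2 ^ (m / (32 * (r + 6)))) :
    {x : ℕ | x < z ∧ ∃ T : ℕ, 1024 * (r + 6) ^ 2 * (β + 1) * T < n * m ∧
      ShowsComputation M Δ Φ β (2 ^ (m / (64 * (r + 6)))) x y T}.ncard ≤ 2 ^ (m / 2) :=
  main r β n m hβ hn hnm z hzm y hy M hM Δ hΔ Φ hΦ

end Pool.Agent.Results.MP_cd8379_lc.VisibleArithmetic
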